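import Pool.Agent.Work.MP_34725c_ag.Main

set_option autoImplicit false

namespace Pool.Agent.Results.MP_34725c_ag.RankOneEmbDimThree

/-- Over a one-dimensional local complete intersection domain of embedding dimension at most
three whose residue characteristic is zero in the ring or lies outside the square of the maximal
ideal, every rigid finitely generated torsion-free module of rank at most one is free. -/
theorem result :
  ∀ (R : Type) [CommRing R] [IsDomain R] [IsNoetherianRing R] [IsLocalRing R],
    ringKrullDim R = 1 →
    (∃ (S : Type) (_ : CommRing S) (_ : IsLocalRing S) (_ : IsNoetherianRing S)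
       (φ : S →+* AdicCompletion (IsLocalRing.maximalIdeal R) R) (rs : List S),
       (((IsLocalRing.maximalIdeal S).spanFinrank : ℕ) : WithBot ℕ∞) = ringKrullDim S ∧
       Function.Surjective φ ∧
       RingHom.ker φ = Ideal.span {r | r ∈ rs} ∧
       RingTheory.Sequence.IsRegular S rs) →
    (IsLocalRing.maximalIdeal R).spanFinrank ≤ 3 →
    (((ringChar (IsLocalRing.ResidueField R) : ℕ) : R) ∈ IsLocalRing.maximalIdeal R ^ 2 →
      ((ringChar (IsLocalRing.ResidueField R) : ℕ) : R) = 0) →
    ∀ (M : Type) [AddCommGroup M] [Module R M],
      Module.Finite R M → NoZeroSMulDivisors R M → Module.rank R M ≤ 1 →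
      (∀ (E : Type) [AddCommGroup E] [Module R E] (f : M →ₗ[R] E) (g : E →ₗ[R] M),
         Function.Injective f → Function.Surjective g → Function.Exact f g →
         ∃ s : M →ₗ[R] E, g.comp s = LinearMap.id) →
      Module.Free R M :=
  fun R _ _ _ _ hdim hci hemb hunr M _ _ _ _ hrank hrig =>
    Pool.Agent.Work.MP_34725c_ag.main R hdim hci hemb hunr M hrank hrig

end Pool.Agent.Results.MP_34725c_ag.RankOneEmbDimThree
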